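import Pool.Agent.helper64.PB.SpecC

set_option autoImplicit false

namespace Pool.Agent.PB

theorem TCO_mono {G : Set Gate} {n : ℕ} {f : BF n} {s s' : ℕ} (h : Size G f s) (hs : s ≤ s') : Size G f s' := by
  obtain ⟨l, h1, h2, h3⟩ := h
  exact ⟨l, h1, h2.trans hs, h3⟩

theorem TCO_var (G : Set Gate) {n : ℕ} (j : Fin n) : Size G (fun x : Fin n → Bool => x j) 0 :=
  ⟨[], Prog.nil, le_refl _, Or.inr ⟨j, rfl⟩⟩

theorem TCO_conj (hCMP : CMP_stmt) (G : Set Gate) (sA : ℕ) (hA : Size G fAnd sA) {n : ℕ} (A : Finset (Fin n))
    (hne : A.Nonempty) :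
    Size G (fun x : Fin n → Bool => decide (∀ i ∈ A, x i = true)) (sA * A.card) := by
  induction hne using Finset.Nonempty.cons_induction with
  | singleton a =>
    have h1 : (fun x : Fin n → Bool => decide (∀ i ∈ ({a} : Finset (Fin n)), x i = true)) = fun x => x a := by
      funext x
      simp
    rw [h1]
    exact TCO_mono (TCO_var G a) (Nat.zero_le _)
  | cons a s ha hs ih =>
    have h := hCMP G 2 n fAnd ![fun x => x a, fun x => decide (∀ i ∈ s, x i = true)] sA ![0, sA * s.card] hA
      (by
        intro i
        fin_cases i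
        · exact TCO_var G a
        · exact ih)
    have h1 : (fun x : Fin n → Bool => decide (∀ i ∈ Finset.cons a s ha, x i = true)) =
        fun x => fAnd fun i => (![fun x => x a, fun x => decide (∀ i ∈ s, x i = true)] : Fin 2 → BF n) i x := by
      funext x
      simp [fAnd]
    rw [h1]
    refine TCO_mono h ?_
    rw [Fin.sum_univ_two, Finset.card_cons]
    simp only [Matrix.cons_val_zero, Matrix.cons_val_one]
    nlinarith

theorem TCO_inf {n : ℕ} (f : BF n) (hf : Conj f) (h1 : f (fun _ => true) = true) (S : Finset (Fin n)) :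
    f (fun j => decide (j ∉ S)) = true ↔ ∀ i ∈ S, f (fun j => decide (j ≠ i)) = true := by
  classical
  induction S using Finset.induction_on with
  | empty => simpa using h1
  | insert a S ha ih =>
    have h2 : (fun j => decide (j ∉ insert a S)) = fun j => (decide (j ≠ a) && decide (j ∉ S)) := by
      funext j
      simp [Finset.mem_insert, not_or]
    rw [h2, hf, Bool.and_eq_true, ih]
    constructor
    · rintro ⟨h3, h4⟩ i hi
      rcases Finset.mem_insert.1 hi with h5 | h5
      · rw [h5]
        exact h3
      · exact h4 i h5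
    · intro h3
      exact ⟨h3 a (Finset.mem_insert_self _ _), fun i hi => h3 i (Finset.mem_insert_of_mem hi)⟩

theorem TCO_form {n : ℕ} (f : BF n) (hf : Conj f) (h1 : f (fun _ => true) = true) :
    f = fun x => decide (∀ i ∈ Finset.univ.filter (fun i => f (fun j => decide (j ≠ i)) = false), x i = true) := by
  funext x
  have h2 := TCO_inf f hf h1 (Finset.univ.filter fun j => x j = false)
  have h3 : (fun j => decide (j ∉ Finset.univ.filter fun j => x j = false)) = x := by
    funext j
    simp
  rw [h3] at h2
  rw [Bool.eq_iff_iff, h2, decide_eq_true_iff]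
  constructor
  · intro h4 i hi
    have h5 := (Finset.mem_filter.1 hi).2
    by_contra h6
    have h7 := h4 i (Finset.mem_filter.2 ⟨Finset.mem_univ _, by simpa using h6⟩)
    rw [h5] at h7
    exact Bool.noConfusion h7
  · intro h4 i hi
    have h5 := (Finset.mem_filter.1 hi).2
    by_contra h6
    have h7 := h4 i (Finset.mem_filter.2 ⟨Finset.mem_univ _, by simpa using h6⟩)
    rw [h5] at h7
    exact Bool.noConfusion h7

theorem TCO_const (hCMP : CMP_stmt) (G : Set Gate) (b : Bool) (sb : ℕ) (h : Size G (fC b 1) sb) {n : ℕ} (hn : 1 ≤ n) :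
    Size G (fC b n) sb := by
  have h1 := hCMP G 1 n (fC b 1) (fun _ x => x ⟨0, hn⟩) sb (fun _ => 0) h (fun _ => TCO_var G ⟨0, hn⟩)
  rw [Finset.sum_const_zero, Nat.add_zero] at h1
  exact h1

theorem TCO (hPRP : PRP_stmt) (hCLP : CLP_stmt) (hSUB : SUB_stmt) (hCMP : CMP_stmt) : TCO_stmt := by
  classical
  intro G hG
  have key : ∀ (m : ℕ) (g : BF m), ∃ s : ℕ, InCl G g → Size G g s := by
    intro m g
    by_cases h : InCl G g
    · obtain ⟨s, hs⟩ := h
      exact ⟨s, fun _ => hs⟩
    · exact ⟨0, fun h' => absurd h' h⟩
  obtain ⟨s0, h0⟩ := key 1 (fC false 1)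
  obtain ⟨s1, h1⟩ := key 1 (fC true 1)
  obtain ⟨s2, h2⟩ := key 2 fAnd
  refine ⟨s0 + s1 + s2, ?_⟩
  intro n hn f hf
  have hC : Conj f := (hPRP G n f hf).2.1 hG
  -- constant functions
  have hconst : ∀ b : Bool, (∀ x, f x = b) → Size G f ((s0 + s1 + s2) * n) := by
    intro b hb
    have h3 : f = fC b n := by
      funext x
      exact hb x
    have h4 : InCl G (fC b 1) := by
      have h5 := hCLP.2 G n 1 f (fun _ x => x 0) hf (fun _ => hCLP.1 G 1 0)
      have h6 : (fun x : Fin 1 → Bool => f fun _ => x 0) = fC b 1 := by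
        funext x
        exact hb _
      rw [h6] at h5
      exact h5
    rw [h3]
    cases b with
    | false =>
      refine TCO_mono (TCO_const hCMP G false s0 (h0 h4) hn) ?_
      calc s0 ≤ (s0 + s1 + s2) * 1 := by omega
        _ ≤ (s0 + s1 + s2) * n := Nat.mul_le_mul_left _ hn
    | true =>
      refine TCO_mono (TCO_const hCMP G true s1 (h1 h4) hn) ?_
      calc s1 ≤ (s0 + s1 + s2) * 1 := by omega
        _ ≤ (s0 + s1 + s2) * n := Nat.mul_le_mul_left _ hn
  by_cases ht : f (fun _ => true) = true
  swap
  · refine hconst false ?_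
    intro x
    have h3 := hC x (fun _ => true)
    have h4 : (fun i => x i && true) = x := by
      funext i
      simp
    rw [h4] at h3
    rw [h3]
    simp only [Bool.not_eq_true] at ht
    rw [ht, Bool.and_false]
  have hform := TCO_form f hC ht
  set A : Finset (Fin n) := Finset.univ.filter (fun i => f (fun j => decide (j ≠ i)) = false) with hA
  have hcard : A.card ≤ n := by
    calc A.card ≤ (Finset.univ : Finset (Fin n)).card := Finset.card_le_univ _
      _ = n := by simp
  rcases Finset.eq_empty_or_nonempty A with hE | hne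
  · refine hconst true ?_
    intro x
    rw [hform, hE]
    simp
  by_cases h1c : A.card = 1
  · obtain ⟨a, ha⟩ := Finset.card_eq_one.1 h1c
    have h3 : f = fun x => x a := by
      rw [hform, ha]
      funext x
      simp
    rw [h3]
    exact TCO_mono (TCO_var G a) (Nat.zero_le _)
  · have h2c : 1 < A.card := by
      have := hne.card_pos
      omega
    obtain ⟨a, ha, b, hb, hab⟩ := Finset.one_lt_card.1 h2c
    have hand : InCl G fAnd := by
      have h5 := hCLP.2 G n 2 f (fun i x => if i = a then x 0 else x 1) hf (by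
        intro i
        by_cases hi : i = a
        · simp only [hi, if_true]
          exact hCLP.1 G 2 0
        · simp only [hi, if_false]
          exact hCLP.1 G 2 1)
      have h6 : (fun x : Fin 2 → Bool => f fun i => if i = a then x 0 else x 1) = fAnd := by
        funext x
        rw [hform]
        simp only [fAnd]
        rw [Bool.eq_iff_iff, decide_eq_true_iff, Bool.and_eq_true]
        constructor
        · intro h7
          have h8 := h7 a ha
          have h9 := h7 b hb
          rw [if_pos rfl] at h8
          rw [if_neg (Ne.symm hab)] at h9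
          exact ⟨h8, h9⟩
        · rintro ⟨h7, h8⟩ i _
          by_cases hi : i = a
          · rw [if_pos hi]
            exact h7
          · rw [if_neg hi]
            exact h8
      rw [h6] at h5
      exact h5
    have h7 := TCO_conj hCMP G s2 (h2 hand) A hne
    rw [← hform] at h7
    refine TCO_mono h7 ?_
    calc s2 * A.card ≤ (s0 + s1 + s2) * A.card := Nat.mul_le_mul_right _ (by omega)
      _ ≤ (s0 + s1 + s2) * n := Nat.mul_le_mul_left _ hcard

end Pool.Agent.PB
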